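import Pool.Agent.N915.PV.Fin
import Pool.Agent.N915.PV.HK
import Pool.Agent.N915.PV.RAT
import Pool.Agent.N915.PV.PW
import Pool.Agent.N915.PV.BLK
import Pool.Agent.N915.PV.ASM
import Pool.Agent.N915.PV.TL
import Pool.Agent.N915.PV.CV
import Pool.Agent.N915.PV.WC

/-!
# Powers of `e`, of `π` and of other numbers, multiplied by numbers with digits of density zero

For a set `A` of natural numbers and `θ > 1` let `ξ_A(θ) = ∑_{a ∈ A} θ^(-a)`; for `A = {0}` it is `1`, and the question is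
about the sequences `ξ_A(θ) θ^n` for `A = {0}` and `θ = e`, `θ = π`. We show that it is enough to add to `0` a set of density
zero:

(1) there is a set `A` of density zero which contains `0` and no other number below `K` (`K` arbitrary) such that the
sequences `ξ_A(e) e^n` and `ξ_A(π) π^n` are jointly completely equidistributed modulo one: for each `s` the vectors of the
`2 s` numbers `ξ_A(e) e^(n+t)`, `ξ_A(π) π^(n+t)`, `0 ≤ t < s`, are equidistributed in the cube;

(2) the same for every countable set `T` of real numbers `> 1` without Pisot numbers: one set `A` of density zero serves for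
all `θ ∈ T`, and the sequences belonging to distinct transcendental numbers of `T` are jointly completely equidistributed;

(3) a real number `θ > 1` has such a set `A` of density zero if and only if it is not a Pisot number; for a Pisot number and
every set `A` of density zero the distance of `ξ_A(θ) θ^n` to the nearest integer tends to zero in the mean.

Proof. The digits are independent random variables, of a density which decreases slowly. The correlation of
`exp(2πi h x_n)` and `exp(2πi h x_m)`, `m < n`, is at most `exp(-p ∑_{j < n-m} ‖h θ^j‖²)`, and the sum diverges by the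
theorem of Pisot, in the version for sums of exponentials (Hankel determinants). The digits are derandomised in dyadic blocks.
-/

set_option autoImplicit false

namespace Pool.Agent.Results.MP_9056e9_nt.DigitsOfDensityZero

open Filter Topology Polynomial

/-- a set of natural numbers of density zero -/
def DensityZero (A : Set ℕ) : Prop :=
  Tendsto (fun N : ℕ => ((A ∩ Set.Icc 1 N).ncard : ℝ) / N) atTop (𝓝 0)

/-- the number `∑_{a ∈ A} θ^(-a)` -/
noncomputable def xi (A : Set ℕ) (θ : ℝ) : ℝ := ∑' a : ℕ, A.indicator (fun a => (θ⁻¹) ^ a) a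

/-- equidistribution modulo one of a sequence of real numbers -/
def Equidistributed (u : ℕ → ℝ) : Prop :=
  ∀ a b : ℝ, 0 ≤ a → a < b → b ≤ 1 →
    Tendsto (fun N : ℕ => (({n : ℕ | 1 ≤ n ∧ n ≤ N ∧ a ≤ Int.fract (u n) ∧ Int.fract (u n) < b}.ncard : ℕ) : ℝ) / N)
      atTop (𝓝 (b - a))

/-- equidistribution modulo one of a sequence of vectors, with the coordinates `u n i`, `i ∈ ι` -/
def EquidistributedVectors {ι : Type} [Fintype ι] (u : ℕ → ι → ℝ) : Prop :=
  ∀ a b : ι → ℝ, (∀ i, 0 ≤ a i ∧ a i < b i ∧ b i ≤ 1) →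
    Tendsto (fun N : ℕ => (({n : ℕ | 1 ≤ n ∧ n ≤ N ∧ ∀ i, a i ≤ Int.fract (u n i) ∧
      Int.fract (u n i) < b i}.ncard : ℕ) : ℝ) / N) atTop (𝓝 (∏ i, (b i - a i)))

/-- a Pisot number: an algebraic integer `θ > 1` all of whose other conjugates have modulus less than one -/
def IsPisot (θ : ℝ) : Prop :=
  1 < θ ∧ IsIntegral ℤ θ ∧ ∀ z : ℂ, aeval z (minpoly ℚ θ) = 0 → z ≠ θ → ‖z‖ < 1

lemma single {u : ℕ → ℝ} (h : N915.PV.Equi (fun (n : ℕ) (_ : Unit) => u n)) : Equidistributed u := by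
  intro a b h0 hab h1
  have h2 := h (fun _ => a) (fun _ => b) (fun _ => ⟨h0, hab, h1⟩)
  simp only [Fintype.prod_unique] at h2
  refine h2.congr fun N => ?_
  congr 3
  apply Set.ext
  intro n
  constructor
  · rintro ⟨q1, q2, q3⟩
    exact ⟨q1, q2, q3 ()⟩
  · rintro ⟨q1, q2, q3⟩
    exact ⟨q1, q2, fun _ => q3⟩

/-- the positive part -/
theorem pos (T : Set ℝ) (hT : T.Countable) (hT1 : ∀ θ ∈ T, 1 < θ ∧ ¬ IsPisot θ) (K : ℕ) :
    ∃ A : Set ℕ, DensityZero A ∧ 0 ∈ A ∧ (∀ a ∈ A, a = 0 ∨ K ≤ a) ∧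
      (∀ θ ∈ T, Equidistributed (fun n : ℕ => xi A θ * θ ^ n)) ∧
      ∀ (k s : ℕ) (θ : Fin k → ℝ), Function.Injective θ → (∀ i, θ i ∈ T ∧ Transcendental ℚ (θ i)) →
        EquidistributedVectors (fun (n : ℕ) (p : Fin k × Fin s) => xi A (θ p.1) * θ p.1 ^ (n + (p.2 : ℕ))) := by
  obtain ⟨A, h1, h2, h3, h4, h5⟩ := N915.PV.main_pos N915.PV.hk N915.PV.rat (N915.PV.asm N915.PV.blk) N915.PV.tl
    N915.PV.wc T hT hT1 K
  exact ⟨A, h1, h2, h3, fun θ hθ => single (h4 θ hθ), h5⟩

/-- the negative part -/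
theorem neg (θ : ℝ) (hθ : IsPisot θ) (A : Set ℕ) (hA : DensityZero A) :
    Tendsto (fun N : ℕ => (∑ n ∈ Finset.Icc 1 N, |xi A θ * θ ^ n - round (xi A θ * θ ^ n)|) / N) atTop (𝓝 0) :=
  N915.PV.main_neg N915.PV.pw N915.PV.cv N915.PV.tl θ hθ A hA

/-- a sequence close to the integers in the mean is not equidistributed -/
lemma not_equi {u : ℕ → ℝ}
    (h : Tendsto (fun N : ℕ => (∑ n ∈ Finset.Icc 1 N, |u n - round (u n)|) / N) atTop (𝓝 0)) :
    ¬ Equidistributed u := by
  classical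
  intro he
  have h1 := he (1 / 4) (3 / 4) (by norm_num) (by norm_num) (by norm_num)
  have h2 : ∀ N : ℕ, (1 / 4 : ℝ) * ((({n : ℕ | 1 ≤ n ∧ n ≤ N ∧ 1 / 4 ≤ Int.fract (u n) ∧
      Int.fract (u n) < 3 / 4}.ncard : ℕ) : ℝ) / N) ≤ (∑ n ∈ Finset.Icc 1 N, |u n - round (u n)|) / N := by
    intro N
    have h3 : {n : ℕ | 1 ≤ n ∧ n ≤ N ∧ 1 / 4 ≤ Int.fract (u n) ∧ Int.fract (u n) < 3 / 4} =
        (((Finset.Icc 1 N).filter (fun n => 1 / 4 ≤ Int.fract (u n) ∧ Int.fract (u n) < 3 / 4) : Finset ℕ) : Set ℕ) := by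
      ext n
      simp [and_assoc]
    rw [h3, Set.ncard_coe_finset, ← mul_div_assoc]
    apply div_le_div_of_nonneg_right _ (Nat.cast_nonneg _)
    calc (1 / 4 : ℝ) * (((Finset.Icc 1 N).filter
          (fun n => 1 / 4 ≤ Int.fract (u n) ∧ Int.fract (u n) < 3 / 4)).card : ℝ)
        = ∑ n ∈ (Finset.Icc 1 N).filter (fun n => 1 / 4 ≤ Int.fract (u n) ∧ Int.fract (u n) < 3 / 4), (1 / 4 : ℝ) := by
          rw [Finset.sum_const, nsmul_eq_mul, mul_comm]
      _ ≤ ∑ n ∈ (Finset.Icc 1 N).filter (fun n => 1 / 4 ≤ Int.fract (u n) ∧ Int.fract (u n) < 3 / 4),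
            |u n - round (u n)| := by
          refine Finset.sum_le_sum fun n hn => ?_
          obtain ⟨-, q1, q2⟩ := Finset.mem_filter.1 hn
          have h4 : u n - (⌊u n⌋ : ℝ) = Int.fract (u n) := Int.self_sub_floor _
          have h5 : (round (u n) : ℤ) ≤ ⌊u n⌋ ∨ ⌊u n⌋ + 1 ≤ (round (u n) : ℤ) := by omega
          rcases h5 with h5 | h5
          · have h6 : ((round (u n) : ℤ) : ℝ) ≤ (⌊u n⌋ : ℝ) := by exact_mod_cast h5
            exact le_trans (by linarith) (le_abs_self _)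
          · have h6 : (⌊u n⌋ : ℝ) + 1 ≤ ((round (u n) : ℤ) : ℝ) := by exact_mod_cast h5
            exact le_trans (by linarith) (neg_le_abs _)
      _ ≤ _ := Finset.sum_le_sum_of_subset_of_nonneg (Finset.filter_subset _ _) fun _ _ _ => abs_nonneg _
  have h3 := le_of_tendsto_of_tendsto' (h1.const_mul (1 / 4)) h h2
  norm_num at h3

/-- a transcendental number is not a Pisot number -/
lemma not_isPisot {θ : ℝ} (h : Transcendental ℚ θ) : ¬ IsPisot θ := fun hP =>
  h (hP.2.1.tower_top (A := ℚ)).isAlgebraic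

/-- **Theorem.** -/
theorem result (K : ℕ) :
    (∃ A : Set ℕ, DensityZero A ∧ 0 ∈ A ∧ (∀ a ∈ A, a = 0 ∨ K ≤ a) ∧
      Equidistributed (fun n : ℕ => xi A (Real.exp 1) * Real.exp 1 ^ n) ∧
      Equidistributed (fun n : ℕ => xi A Real.pi * Real.pi ^ n) ∧
      ∀ s : ℕ, EquidistributedVectors (fun (n : ℕ) (p : Fin 2 × Fin s) =>
        xi A (![Real.exp 1, Real.pi] p.1) * (![Real.exp 1, Real.pi] p.1) ^ (n + (p.2 : ℕ)))) ∧
    (∀ T : Set ℝ, T.Countable → (∀ θ ∈ T, 1 < θ ∧ ¬ IsPisot θ) →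
      ∃ A : Set ℕ, DensityZero A ∧ 0 ∈ A ∧ (∀ a ∈ A, a = 0 ∨ K ≤ a) ∧
        (∀ θ ∈ T, Equidistributed (fun n : ℕ => xi A θ * θ ^ n)) ∧
        ∀ (k s : ℕ) (θ : Fin k → ℝ), Function.Injective θ → (∀ i, θ i ∈ T ∧ Transcendental ℚ (θ i)) →
          EquidistributedVectors (fun (n : ℕ) (p : Fin k × Fin s) => xi A (θ p.1) * θ p.1 ^ (n + (p.2 : ℕ)))) ∧
    (∀ θ : ℝ, 1 < θ → ((∃ A : Set ℕ, DensityZero A ∧ Equidistributed (fun n : ℕ => xi A θ * θ ^ n)) ↔ ¬ IsPisot θ)) ∧
    (∀ θ : ℝ, IsPisot θ → ∀ A : Set ℕ, DensityZero A →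
      Tendsto (fun N : ℕ => (∑ n ∈ Finset.Icc 1 N, |xi A θ * θ ^ n - round (xi A θ * θ ^ n)|) / N) atTop (𝓝 0)) := by
  refine ⟨?_, fun T hT hT1 => pos T hT hT1 K, fun θ hθ => ⟨?_, ?_⟩, neg⟩
  · have he1 : (1 : ℝ) < Real.exp 1 := by
      have := Real.add_one_lt_exp (one_ne_zero : (1 : ℝ) ≠ 0)
      linarith
    have hp1 : (1 : ℝ) < Real.pi := by linarith [Real.pi_gt_three]
    have hte : Transcendental ℚ (Real.exp 1) := H340R2.LW.transcendental_exp_one
    have htp : Transcendental ℚ Real.pi := H340R2.LW.transcendental_pi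
    have hne : Real.exp 1 ≠ Real.pi := by
      have h1 := Real.exp_one_lt_d9
      have h2 := Real.pi_gt_three
      intro h
      linarith
    obtain ⟨A, h1, h2, h3, h4, h5⟩ := pos {Real.exp 1, Real.pi} (Set.toFinite _).countable (by
      intro θ hθ
      rcases hθ with h | h
      · rw [h]
        exact ⟨he1, not_isPisot hte⟩
      · rw [Set.mem_singleton_iff.1 h]
        exact ⟨hp1, not_isPisot htp⟩) K
    refine ⟨A, h1, h2, h3, h4 _ (by simp), h4 _ (by simp), fun s => ?_⟩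
    refine h5 2 s ![Real.exp 1, Real.pi] ?_ ?_
    · intro i j hij
      fin_cases i <;> fin_cases j
      · rfl
      · exact absurd hij hne
      · exact absurd hij.symm hne
      · rfl
    · intro i
      fin_cases i
      · exact ⟨by simp, hte⟩
      · exact ⟨by simp, htp⟩
  · rintro ⟨A, hA, hE⟩ hP
    exact not_equi (neg θ hP A hA) hE
  · intro hP
    obtain ⟨A, h1, -, -, h4, -⟩ := pos {θ} (Set.countable_singleton _) (by
      intro x hx
      rw [Set.mem_singleton_iff.1 hx]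
      exact ⟨hθ, hP⟩) 0
    exact ⟨A, h1, h4 θ (Set.mem_singleton _)⟩

end Pool.Agent.Results.MP_9056e9_nt.DigitsOfDensityZero
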