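import Pool.Agent.N586.KO.Tn4
import Pool.Agent.N586.KO.Fam
import Pool.Agent.N586.KO.Co
import Pool.Agent.N586.KO.Core
import Pool.Agent.N586.KO.Exps
import Pool.Agent.N586.KO.Sm
import Pool.Agent.N586.KO.Prog

/-!
# The powers of the numbers of a progression of small step are equidistributed modulo one up to
`(log 1 / s) ^ (3 / 2 - ε)` terms

For almost all real numbers `x > 1` the vectors `(ξ x ^ n, …, ξ x ^ (n + w - 1))`, `n = 1, 2, …`, are
equidistributed modulo one (Koksma, Franklin). No rational number `x` with this property is known, and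
`x = e` and `x = π` are open. We show a finite version of this theorem for every arithmetic and every
geometric progression with a small step `s`: let `1 < T₀ < T₁`, `ξ ≠ 0`, `0 < δ < 1 / 2`, `w ≥ 1` and
`ε > 0`. There is `C` such that for all sufficiently small `s > 0` and every real `β`, all the numbers
`x = β + s a` (`a` an integer) between `T₀` and `T₁`, except for at most `s⁻¹ (log 1 / s) ^ (-1 / (3 w))`
of them, satisfy: for all `N ≤ (log 1 / s) ^ (1 + δ)` and all boxes `B`, the number of the `n < N` with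
`(ξ x ^ n, …, ξ x ^ (n + w - 1)) ∈ B` modulo one is `N vol B` up to `ε N + C log (1 / s)`. The same holds
for the numbers `x = β exp (s a)`, `β > 0`.

Examples are the rational numbers `a / q` with a given large denominator `q`, the numbers `e a / q`,
`π a / q`, `e + a / q`, `π + a / q`, the real numbers with given digits from the `k`-th place on, and the
powers `e ^ (a / q)`, `π ^ (a / q)`, `2 ^ (a / q)`. The number of the terms is larger than every multiple
of `log q`, the size of `a / q`: `x ^ n` is much larger than every power of `q` (and the denominator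
`q ^ n` of `(a / q) ^ n` as well).

Proof. Second moment over `a`. The phase `ξ ∑ l_j (x ^ (n + j) - x ^ (m + j))`, `m < n`, at the point
`a + y z` is expanded in powers of `y z`, for `y, z` up to `s ^ (-39 / 100)`. All its first
`C (log 1 / s) ^ δ` coefficients have the expected size up to small powers, unless the polynomial
`∑ l_j X ^ j` is small at `x`, which happens for few `a` since it is integral. So Vinogradov's method
for bilinear sums applies, with the mean value theorem with constants `exp (C k ^ 4)`.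
-/

set_option autoImplicit false

namespace Pool.Agent.Results.MP_9056e9_nt.KoksmaFranklinProgressions

/-- for all `N ≤ L` and all boxes `∏ [u j, v j) ⊆ [0, 1) ^ w` the number of the `n < N` such that the
vector of the fractional parts of `y n, …, y (n + w - 1)` is in the box differs from `N` times the
volume of the box by at most `ε N + E` -/
def Equidistributed (w : ℕ) (ε E L : ℝ) (y : ℕ → ℝ) : Prop :=
  ∀ (N : ℕ) (u v : Fin w → ℝ), (N : ℝ) ≤ L → (∀ j, 0 ≤ u j ∧ u j ≤ v j ∧ v j ≤ 1) →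
    |(({n : ℕ | n < N ∧ ∀ j : Fin w, u j ≤ Int.fract (y (n + j)) ∧
      Int.fract (y (n + j)) < v j}.ncard : ℕ) : ℝ) - N * ∏ j, (v j - u j)| ≤ ε * N + E

theorem of_eqd {w : ℕ} {ε E L : ℝ} {y : ℕ → ℝ} (h : Pool.Agent.N586.KO.Eqd w ε E ⌊L⌋₊ y) :
    Equidistributed w ε E L y := by
  classical
  intro N u v hN huv
  have h1 := h N (fun j => if hj : j < w then u ⟨j, hj⟩ else 0)
    (fun j => if hj : j < w then v ⟨j, hj⟩ else 0) (Nat.le_floor hN)
    (fun j => by
      split_ifs with hj
      · exact (huv _).1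
      · exact le_rfl)
    (fun j => by
      split_ifs with hj
      · exact (huv _).2.1
      · exact le_rfl)
    (fun j => by
      split_ifs with hj
      · exact (huv _).2.2
      · exact zero_le_one)
  have h2 : {n : ℕ | n < N ∧ ∀ j : Fin w, u j ≤ Int.fract (y (n + j)) ∧
      Int.fract (y (n + j)) < v j} =
      (((Finset.range N).filter (fun n => ∀ j < w,
        (if hj : j < w then u ⟨j, hj⟩ else 0) ≤ Int.fract (y (n + j)) ∧
        Int.fract (y (n + j)) < (if hj : j < w then v ⟨j, hj⟩ else 0)) : Finset ℕ) : Set ℕ) := by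
    ext n
    simp only [Set.mem_ofPred_eq, Finset.coe_filter, Finset.mem_range]
    refine and_congr_right fun _ => ⟨fun h3 j hj => ?_, fun h3 j => ?_⟩
    · rw [dif_pos hj, dif_pos hj]
      exact h3 ⟨j, hj⟩
    · have h4 := h3 j j.2
      rw [dif_pos j.2, dif_pos j.2] at h4
      exact h4
  have h3 : ∏ j, (v j - u j) = ∏ j ∈ Finset.range w,
      ((if hj : j < w then v ⟨j, hj⟩ else 0) - (if hj : j < w then u ⟨j, hj⟩ else 0)) := by
    rw [Finset.prod_range]
    refine Finset.prod_congr rfl fun j _ => ?_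
    rw [dif_pos j.2, dif_pos j.2]
  rw [h2, Set.ncard_coe_finset, h3]
  exact h1

/-- Let `1 < T₀ < T₁`, `ξ ≠ 0`, `0 < δ < 1 / 2`, `w ≥ 1` and `ε > 0`. There is `C` such that for all
sufficiently small `s > 0` and all real `β`, the vectors of `w` consecutive terms of the sequence
`ξ x ^ n` are equidistributed modulo one, up to `ε N + C log (1 / s)`, for all
`N ≤ (log (1 / s)) ^ (1 + δ)`, for all numbers `x = β + s a` between `T₀` and `T₁`, `a` an integer, except
for at most `s⁻¹ (log (1 / s)) ^ (-1 / (3 w))` of them; the same holds for the numbers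
`x = β exp (s a)` if `β > 0`. -/
theorem result (w : ℕ) (hw : 1 ≤ w) (ξ δ ε T₀ T₁ : ℝ) (hξ : ξ ≠ 0) (hδ : 0 < δ) (hδ2 : δ < 1 / 2)
    (hε : 0 < ε) (hT : 1 < T₀) (hT1 : T₀ < T₁) :
    ∃ C : ℝ, 0 < C ∧ ∃ s₀ : ℝ, 0 < s₀ ∧ ∀ s : ℝ, 0 < s → s ≤ s₀ → ∀ β : ℝ,
      (({a : ℤ | T₀ ≤ β + s * a ∧ β + s * a ≤ T₁ ∧
        ¬ Equidistributed w ε (C * Real.log (1 / s)) ((Real.log (1 / s)) ^ (1 + δ))
          (fun n => ξ * (β + s * a) ^ n)}.ncard : ℕ) : ℝ) ≤
        1 / s * (Real.log (1 / s)) ^ (-(1 / (3 * w)) : ℝ) ∧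
      (0 < β → (({a : ℤ | T₀ ≤ β * Real.exp (s * a) ∧ β * Real.exp (s * a) ≤ T₁ ∧
        ¬ Equidistributed w ε (C * Real.log (1 / s)) ((Real.log (1 / s)) ^ (1 + δ))
          (fun n => ξ * (β * Real.exp (s * a)) ^ n)}.ncard : ℕ) : ℝ) ≤
        1 / s * (Real.log (1 / s)) ^ (-(1 / (3 * w)) : ℝ)) := by
  have hE : Pool.Agent.N586.KO.S_EXPS :=
    Pool.Agent.N586.KO.exps (Pool.Agent.N586.KO.core Pool.Agent.N586.KO.tn4 Pool.Agent.N586.KO.co)
  obtain ⟨C, hC, s1, hs1, h1⟩ := Pool.Agent.N586.KO.arith hE Pool.Agent.N586.KO.sm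
    Pool.Agent.N586.KO.fr w hw ξ δ ε T₀ T₁ hξ hδ hδ2 hε hT hT1
  obtain ⟨C', hC', s2, hs2, h2⟩ := Pool.Agent.N586.KO.geom hE Pool.Agent.N586.KO.sm
    Pool.Agent.N586.KO.fe w hw ξ δ ε T₀ T₁ hξ hδ hδ2 hε hT hT1
  refine ⟨max C C', lt_max_of_lt_left hC, min (min s1 s2) 1, by positivity, fun s hs hss β => ?_⟩
  have hss1 : s ≤ s1 := hss.trans ((min_le_left _ _).trans (min_le_left _ _))
  have hss2 : s ≤ s2 := hss.trans ((min_le_left _ _).trans (min_le_right _ _))
  have hlog : 0 ≤ Real.log (1 / s) :=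
    Real.log_nonneg (by rw [le_div_iff₀ hs, one_mul]; exact hss.trans (min_le_right _ _))
  have hmono : ∀ (D : ℝ) (y : ℕ → ℝ), D ≤ max C C' →
      ¬ Equidistributed w ε (max C C' * Real.log (1 / s)) ((Real.log (1 / s)) ^ (1 + δ)) y →
      ¬ Pool.Agent.N586.KO.Eqd w ε (D * Real.log (1 / s)) ⌊(Real.log (1 / s)) ^ (1 + δ)⌋₊ y := by
    intro D y hD hn h3
    exact hn (of_eqd (h3.mono (mul_le_mul_of_nonneg_right hD hlog) le_rfl))
  refine ⟨le_trans (Nat.cast_le.2 (Set.ncard_le_ncard ?_ ?_)) (h1 s hs hss1 β), fun hβ =>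
    le_trans (Nat.cast_le.2 (Set.ncard_le_ncard ?_ ?_)) (h2 s hs hss2 β hβ)⟩
  · rintro a ⟨h3, h4, h5⟩
    exact ⟨h3, h4, hmono C _ (le_max_left _ _) h5⟩
  · refine (Set.finite_Icc ⌈(T₀ - β) / s⌉ ⌊(T₁ - β) / s⌋).subset ?_
    rintro a ⟨h3, h4, -⟩
    rw [Set.mem_Icc, Int.ceil_le, Int.le_floor, div_le_iff₀ hs, le_div_iff₀ hs]
    exact ⟨by linarith, by linarith⟩
  · rintro a ⟨h3, h4, h5⟩
    exact ⟨h3, h4, hmono C' _ (le_max_right _ _) h5⟩
  · refine (Set.finite_Icc ⌈(Real.log T₀ - Real.log β) / s⌉ ⌊(Real.log T₁ - Real.log β) / s⌋).subset ?_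
    rintro a ⟨h3, h4, -⟩
    have hT00 : 0 < T₀ := by linarith
    have hT10 : 0 < T₁ := by linarith
    have h6 : Real.log (β * Real.exp (s * a)) = Real.log β + s * a := by
      rw [Real.log_mul hβ.ne' (Real.exp_pos _).ne', Real.log_exp]
    have h7 := Real.log_le_log hT00 h3
    have h8 := Real.log_le_log (by positivity) h4
    rw [h6] at h7 h8
    rw [Set.mem_Icc, Int.ceil_le, Int.le_floor, div_le_iff₀ hs, le_div_iff₀ hs]
    exact ⟨by linarith, by linarith⟩

end Pool.Agent.Results.MP_9056e9_nt.KoksmaFranklinProgressions
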