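import Pool.Agent.N760.TG.U
import Pool.Agent.Results.MP_9056e9_nt.AlmostAllExponents

/-!
# Rational approximation of `b e ^ n + P(n)` for all `n` near functions of the values of multiplicative functions

Let `f` be a positive multiplicative function of at most polynomial growth such that `f p ≤ M p` for the large primes `p`,
with different values at different large primes; for example Euler's function or the sum of the divisors. Let
`s = 1 - δ² / (12800 · 2 ^ D)`, `0 < δ ≤ 1`, and let `G` have steps bounded below by a positive constant and growth at most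
`v ^ d`, `1 ≤ d`, for example `G v = v`, and `0 ≤ κ < 1 - d s`. For all `m ≤ N` but `N / (log N) ^ U`, EVERY integer `n ≥ 1` with
`|n - G (f m)| ≤ f(m) ^ κ` has the property that no rational number with denominator at most `Q` is closer to `b e ^ n + P(n)`
than `(|b| e ^ n) ^ (-δ) Q ^ (-96 · 2 ^ D / δ)`; here `N ≥ N₀` and `N₀` does not depend on `b` (`|b| ≥ 1`), on the real polynomial
`P` of degree at most `D` and on `Q ≥ 1`. The values of `f` are in general taken with very large multiplicities, and so this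
does not follow from the number of exceptional `n`, for which one has only the bound `X ^ s`.
-/

set_option autoImplicit false

namespace Pool.Agent.Results.MP_9056e9_nt.MultiplicativeValues

open Finset
open Pool.Agent.N733.TG (LM Expanding lm_totient lm_sigma expanding_pow)

/-- every rational number with denominator at most `Q` has distance at least `(|b| e ^ n) ^ (-δ) Q ^ (-96 · 2 ^ D / δ)` from
`b e ^ n + P(n)` -/
def FarFromRationals (b : ℝ) (P : Polynomial ℝ) (D : ℕ) (δ Q : ℝ) (n : ℕ) : Prop :=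
  ∀ (q : ℕ) (p : ℤ), 1 ≤ q → (q : ℝ) ≤ Q →
    (|b| * Real.exp n) ^ (-δ) * Q ^ (-(96 * 2 ^ D / δ)) ≤ |b * Real.exp n + P.eval (n : ℝ) - p / q|

/-- **Theorem.** Let `f` be multiplicative and positive, of at most polynomial growth, with `f p ≤ M p` at the large primes,
and injective there. Let `G` have steps `≥ a > 0` and growth at most `v ^ d`. Let `0 < δ ≤ 1`, `κ ≥ 0` and
`d (1 - δ² / (12800 · 2 ^ D)) + κ < 1`. For every `U` there is `N₀` such that for all `N ≥ N₀`, all real `b` with `|b| ≥ 1`, all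
real polynomials `P` of degree at most `D` and all `Q ≥ 1`: for all `m ≤ N` but `N / (log N) ^ U`, EVERY integer `n ≥ 1` with
`|n - G (f m)| ≤ f(m) ^ κ` satisfies `|b e ^ n + P(n) - p / q| ≥ (|b| e ^ n) ^ (-δ) Q ^ (-96 · 2 ^ D / δ)` for all rational numbers
`p / q` with `1 ≤ q ≤ Q`. Euler's function and the sum of the divisors are examples of such functions `f`, and `α v ^ d` with
`α > 0`, `d ≥ 1` is an example of `G`. -/
theorem result :
    (∀ f : ℕ → ℕ, LM f → ∀ (G : ℕ → ℝ) (d : ℝ), Expanding G d → ∀ (D : ℕ) (δ κ : ℝ), 0 < δ → δ ≤ 1 → 0 ≤ κ →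
      d * (1 - δ ^ 2 / (12800 * 2 ^ D)) + κ < 1 → ∀ U : ℕ, ∃ N₀ : ℕ, ∀ N : ℕ, N₀ ≤ N →
      ∀ (b : ℝ) (P : Polynomial ℝ) (Q : ℝ), 1 ≤ |b| → P.natDegree ≤ D → 1 ≤ Q →
      ({m : ℕ | 1 ≤ m ∧ m ≤ N ∧ ¬ ∀ n : ℕ, 1 ≤ n → |(n : ℝ) - G (f m)| ≤ (f m : ℝ) ^ κ →
        FarFromRationals b P D δ Q n}.ncard : ℝ) ≤ N / Real.log N ^ U) ∧
    (LM Nat.totient ∧ LM (fun m => ∑ d ∈ m.divisors, d)) ∧
    ∀ α d : ℝ, 0 < α → 1 ≤ d → Expanding (fun v => α * (v : ℝ) ^ d) d := by
  refine ⟨fun f hf G d hG D δ κ hδ hδ1 hκ h1 U => ?_, ⟨lm_totient, lm_sigma⟩, fun α d hα hd => expanding_pow hα hd⟩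
  have hpos : 0 ≤ 1 - δ ^ 2 / (12800 * 2 ^ D) := by
    have h1 : δ ^ 2 ≤ 1 := pow_le_one₀ hδ.le hδ1
    have h2 : (1 : ℝ) ≤ 12800 * 2 ^ D := by
      have : (1 : ℝ) ≤ 2 ^ D := one_le_pow₀ (by norm_num)
      linarith
    have h3 : δ ^ 2 / (12800 * 2 ^ D) ≤ 1 := by
      rw [div_le_one (by positivity)]
      linarith
    linarith
  obtain ⟨A, hA, h⟩ := AlmostAllExponents.result D
  obtain ⟨N₀, hN₀⟩ := Pool.Agent.N760.TG.keep_good_nat_unif hf hG hpos hκ h1 (A / δ) U
  refine ⟨N₀, fun N hN b P Q hb hP hQ => ?_⟩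
  have h3 := hN₀ (fun n : ℕ => ∃ (q : ℕ) (p : ℤ), 1 ≤ q ∧ (q : ℝ) ≤ Q ∧
        |b * Real.exp n + P.eval (n : ℝ) - p / q| < (|b| * Real.exp n) ^ (-δ) * Q ^ (-(96 * 2 ^ D / δ)))
      (fun X hX => h δ b Q P X hδ hδ1 hb hQ hP hX) N hN
  refine le_trans (le_of_eq ?_) h3
  congr 2
  ext m
  simp only [Set.mem_ofPred_eq, FarFromRationals]
  push Not
  rfl

end Pool.Agent.Results.MP_9056e9_nt.MultiplicativeValues
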