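import Pool.Agent.N586.KO.Tn4
import Pool.Agent.N586.KO.Fam
import Pool.Agent.N586.KO.Co
import Pool.Agent.N586.DD.Prog
import Pool.Agent.N586.DD.Et
import Pool.Agent.N586.DD.Mx
import Pool.Agent.N586.DD.Dm

/-!
# The powers of the numbers of a progression of small step have square-root discrepancy

For almost all real numbers `x > 1` the discrepancy of the sequence `x ^ n` is the square root of the
number of terms, up to logarithms (Erdős and Koksma, Cassels). No rational number `x` and no other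
explicit number with this property is known, and `x = e` and `x = π` are open. We show a finite version
for every arithmetic and every geometric progression with a small step `s`: let `1 < T₀ < T₁`,
`0 < δ < 1 / 2` and `0 < ε ≤ 1`. There is `C` such that for all sufficiently small `s > 0`, all real `ξ`
between `s ^ (1 / 20)` and `s ^ (-1 / 20)` in absolute value and all real `β`, all the numbers
`x = β + s a` (`a` an integer) between `T₀` and `T₁`, except for at most `s⁻¹ (log 1 / s) ^ (-ε)` of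
them, satisfy: every piece `ξ x ^ n`, `M ≤ n < M + N`, with `C log (1 / s) ≤ M` and
`M + N ≤ (log 1 / s) ^ (1 + δ)`, has all its `N` terms in the right proportion in all intervals modulo
one, with an error of at most `(log 1 / s) ^ ε √(M + N)`. The same holds for the numbers
`x = β exp (s a)`, `β > 0`.

Examples are the rational numbers `a / q` with a given large denominator `q`, the numbers `e a / q`,
`π a / q`, `e + a / q`, `π + a / q`, and the powers `e ^ (a / q)`, `π ^ (a / q)`. The error is much smaller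
than the number `C log q` of the terms for which `x ^ n` is not yet larger than a power of `q`.

Proof. For a frequency `h ≤ (log 1 / s) ^ 3` the exponential sums over `a` with the phase
`h ξ (x ^ n - x ^ m)`, `m < n`, have a saving of more than every power of `log (1 / s)`: the phase at the
point `a + y z` is expanded in powers of `y z`, for `y, z` up to `s ^ (-39 / 100)`, and Vinogradov's method
for bilinear sums applies, with the mean value theorem with constants `exp (C k ^ 4)`; this is uniform in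
`h ξ`. The rest is the maximal inequality of Rademacher and Menshov for the mean square over `a` and
the inequality of Erdős and Turán.
-/

set_option autoImplicit false

namespace Pool.Agent.Results.MP_9056e9_nt.SquareRootDiscrepancy

/-- for all `M ≥ A` and `N` with `M + N ≤ B` and all intervals `[u, v) ⊆ [0, 1)`, the number of the `n`
with `M ≤ n < M + N` such that the fractional part of `y n` is in `[u, v)` differs from `N (v - u)` by at
most `E √(M + N)` -/
def Discrepancy (A B E : ℝ) (y : ℕ → ℝ) : Prop :=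
  ∀ (M N : ℕ) (u v : ℝ), A ≤ M → (M : ℝ) + N ≤ B → 0 ≤ u → u ≤ v → v ≤ 1 →
    |(({n : ℕ | M ≤ n ∧ n < M + N ∧ u ≤ Int.fract (y n) ∧ Int.fract (y n) < v}.ncard : ℕ) : ℝ) -
      N * (v - u)| ≤ E * √((M : ℝ) + N)

theorem of_dsc {C L b E : ℝ} {y : ℕ → ℝ} (h : Pool.Agent.N586.DD.Dsc ⌈C * L⌉₊ ⌊b⌋₊ E y) :
    Discrepancy (C * L) b E y := by
  intro M N u v h1 h2 h3 h4 h5
  have h6 := h M N u v (Nat.ceil_le.2 h1) (Nat.le_floor (by push_cast; exact h2)) h3 h4 h5
  have h7 : {n : ℕ | M ≤ n ∧ n < M + N ∧ u ≤ Int.fract (y n) ∧ Int.fract (y n) < v} =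
      (((Finset.Ico M (M + N)).filter (fun n => u ≤ Int.fract (y n) ∧ Int.fract (y n) < v) :
        Finset ℕ) : Set ℕ) := by
    ext n
    simp only [Set.mem_ofPred_eq, Finset.coe_filter, Finset.mem_Ico]
    tauto
  rw [h7, Set.ncard_coe_finset]
  exact h6

/-- Let `1 < T₀ < T₁`, `0 < δ < 1 / 2` and `0 < ε ≤ 1`. There is `C` such that for all sufficiently small
`s > 0`, all real `ξ` with `s ^ (1 / 20) ≤ |ξ| ≤ s ^ (-1 / 20)` and all real `β`, the sequence `ξ x ^ n` has
discrepancy at most `(log (1 / s)) ^ ε √(M + N)` on all pieces `M ≤ n < M + N` between `C log (1 / s)` and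
`(log (1 / s)) ^ (1 + δ)`, for all numbers `x = β + s a` between `T₀` and `T₁`, `a` an integer, except for at
most `s⁻¹ (log (1 / s)) ^ (-ε)` of them; the same holds for the numbers `x = β exp (s a)` if `β > 0`. -/
theorem result (δ ε T₀ T₁ : ℝ) (hδ : 0 < δ) (hδ2 : δ < 1 / 2) (hε : 0 < ε) (hε1 : ε ≤ 1)
    (hT : 1 < T₀) (hT1 : T₀ < T₁) :
    ∃ C : ℝ, 0 < C ∧ ∃ s₀ : ℝ, 0 < s₀ ∧ ∀ s : ℝ, 0 < s → s ≤ s₀ → ∀ ξ : ℝ,
      s ^ (1 / 20 : ℝ) ≤ |ξ| → |ξ| ≤ s ^ (-(1 / 20) : ℝ) → ∀ β : ℝ,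
      (({a : ℤ | T₀ ≤ β + s * a ∧ β + s * a ≤ T₁ ∧
        ¬ Discrepancy (C * Real.log (1 / s)) ((Real.log (1 / s)) ^ (1 + δ))
          ((Real.log (1 / s)) ^ ε) (fun n => ξ * (β + s * a) ^ n)}.ncard : ℕ) : ℝ) ≤
        1 / s * (Real.log (1 / s)) ^ (-ε) ∧
      (0 < β → (({a : ℤ | T₀ ≤ β * Real.exp (s * a) ∧ β * Real.exp (s * a) ≤ T₁ ∧
        ¬ Discrepancy (C * Real.log (1 / s)) ((Real.log (1 / s)) ^ (1 + δ))
          ((Real.log (1 / s)) ^ ε) (fun n => ξ * (β * Real.exp (s * a)) ^ n)}.ncard : ℕ) : ℝ) ≤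
        1 / s * (Real.log (1 / s)) ^ (-ε)) := by
  have hE : Pool.Agent.N586.DD.S_EXPSU :=
    Pool.Agent.N586.DD.expsU (Pool.Agent.N586.DD.coreU Pool.Agent.N586.KO.tn4 Pool.Agent.N586.KO.co)
  have hD : Pool.Agent.N586.DD.S_DM := Pool.Agent.N586.DD.dm Pool.Agent.N586.DD.et
    Pool.Agent.N586.DD.mx
  obtain ⟨C, hC, s1, hs1, h1⟩ := Pool.Agent.N586.DD.arithD hE hD
    Pool.Agent.N586.KO.fr δ ε T₀ T₁ hδ hδ2 hε hε1 hT hT1
  obtain ⟨C', hC', s2, hs2, h2⟩ := Pool.Agent.N586.DD.geomD hE hD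
    Pool.Agent.N586.KO.fe δ ε T₀ T₁ hδ hδ2 hε hε1 hT hT1
  refine ⟨max C C', lt_max_of_lt_left hC, min (min s1 s2) 1, by positivity,
    fun s hs hss ξ hξ1 hξ2 β => ?_⟩
  have hss1 : s ≤ s1 := hss.trans ((min_le_left _ _).trans (min_le_left _ _))
  have hss2 : s ≤ s2 := hss.trans ((min_le_left _ _).trans (min_le_right _ _))
  have hs1' : s ≤ 1 := hss.trans (min_le_right _ _)
  have hlog : 0 ≤ Real.log (1 / s) :=
    Real.log_nonneg (by rw [le_div_iff₀ hs, one_mul]; exact hs1')
  have hξ0 : 0 < |ξ| := lt_of_lt_of_le (by positivity) hξ1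
  have hξ : ξ ≠ 0 := abs_pos.1 hξ0
  have hξs : 20 * |Real.log (|ξ|)| ≤ Real.log (1 / s) := by
    have h3 := Real.log_le_log (by positivity) hξ1
    have h4 := Real.log_le_log hξ0 hξ2
    rw [Real.log_rpow hs] at h3 h4
    rw [one_div, Real.log_inv]
    have h5 : |Real.log (|ξ|)| ≤ -(1 / 20 * Real.log s) := by
      rw [abs_le]
      constructor <;> linarith
    linarith
  have hmono : ∀ (D : ℝ) (y : ℕ → ℝ), D ≤ max C C' →
      ¬ Discrepancy (max C C' * Real.log (1 / s)) ((Real.log (1 / s)) ^ (1 + δ))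
        ((Real.log (1 / s)) ^ ε) y →
      ¬ Pool.Agent.N586.DD.Dsc ⌈D * Real.log (1 / s)⌉₊ ⌊(Real.log (1 / s)) ^ (1 + δ)⌋₊
        ((Real.log (1 / s)) ^ ε) y := by
    intro D y hD hn h3
    exact hn (of_dsc (h3.mono (Nat.ceil_le_ceil (mul_le_mul_of_nonneg_right hD hlog)) le_rfl le_rfl))
  refine ⟨le_trans (Nat.cast_le.2 (Set.ncard_le_ncard ?_ ?_)) (h1 s hs hss1 ξ hξ hξs β), fun hβ =>
    le_trans (Nat.cast_le.2 (Set.ncard_le_ncard ?_ ?_)) (h2 s hs hss2 ξ hξ hξs β hβ)⟩
  · rintro a ⟨h3, h4, h5⟩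
    exact ⟨h3, h4, hmono C _ (le_max_left _ _) h5⟩
  · refine (Set.finite_Icc ⌈(T₀ - β) / s⌉ ⌊(T₁ - β) / s⌋).subset ?_
    rintro a ⟨h3, h4, -⟩
    rw [Set.mem_Icc, Int.ceil_le, Int.le_floor, div_le_iff₀ hs, le_div_iff₀ hs]
    exact ⟨by linarith, by linarith⟩
  · rintro a ⟨h3, h4, h5⟩
    exact ⟨h3, h4, hmono C' _ (le_max_right _ _) h5⟩
  · refine (Set.finite_Icc ⌈(Real.log T₀ - Real.log β) / s⌉ ⌊(Real.log T₁ - Real.log β) / s⌋).subset ?_
    rintro a ⟨h3, h4, -⟩
    have hT00 : 0 < T₀ := by linarith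
    have hT10 : 0 < T₁ := by linarith
    have h6 : Real.log (β * Real.exp (s * a)) = Real.log β + s * a := by
      rw [Real.log_mul hβ.ne' (Real.exp_pos _).ne', Real.log_exp]
    have h7 := Real.log_le_log hT00 h3
    have h8 := Real.log_le_log (by positivity) h4
    rw [h6] at h7 h8
    rw [Set.mem_Icc, Int.ceil_le, Int.le_floor, div_le_iff₀ hs, le_div_iff₀ hs]
    exact ⟨by linarith, by linarith⟩

end Pool.Agent.Results.MP_9056e9_nt.SquareRootDiscrepancy
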